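import Pool.Agent.helper83.FI.SpecR

set_option autoImplicit false

/-!
# fib:IDP (MP_baa4d7_al): lifting of idempotents in the algebra generated by one element
-/

namespace Pool.Agent.FI

open Pool.Agent.helper58.DC Pool.Agent.DI Pool.Agent.GR Pool.Agent.OB

section

variable {G : Type} [Group G]

/-- the matrix of the multiplication by `z` -/
noncomputable def IDP_P : (G → ℂ) →ₗ[ℂ] Matrix G G ℂ where
  toFun z := Matrix.of fun g x => z (g * x⁻¹)
  map_add' z w := by
    ext g x
    rfl
  map_smul' c z := by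
    ext g x
    rfl

theorem IDP_P_apply (z : G → ℂ) (g x : G) : IDP_P z g x = z (g * x⁻¹) := rfl

theorem IDP_P_inj {z w : G → ℂ} (h : IDP_P z = IDP_P w) : z = w := by
  funext g
  have := congrFun (congrFun h g) 1
  rw [IDP_P_apply, IDP_P_apply, inv_one, mul_one] at this
  exact this

theorem IDP_P_mul [Fintype G] (z w : G → ℂ) : IDP_P (cv z w) = IDP_P z * IDP_P w := by
  ext g x
  rw [IDP_P_apply, Matrix.mul_apply]
  unfold cv
  rw [finsum_eq_sum_of_fintype]
  refine (Fintype.sum_equiv ((Equiv.inv G).trans (Equiv.mulLeft g)) _ _ fun y => ?_).symm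
  rw [IDP_P_apply, IDP_P_apply]
  have e1 : ((Equiv.inv G).trans (Equiv.mulLeft g)) y = g * y⁻¹ := rfl
  rw [e1]
  have e2 : (g * y⁻¹)⁻¹ * (g * x⁻¹) = y * x⁻¹ := by group
  rw [e2]

theorem IDP_P_one [DecidableEq G] : IDP_P (dl : G → ℂ) = 1 := by
  ext g x
  rw [IDP_P_apply, Matrix.one_apply]
  unfold dl
  by_cases h : g = x
  · rw [if_pos h, if_pos (by rw [h, mul_inv_cancel])]
  · rw [if_neg h, if_neg (by rw [mul_inv_eq_one]; exact h)]

theorem IDP_P_pow [Fintype G] [DecidableEq G] (a : G → ℂ) (n : ℕ) :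
    IDP_P (cvp a n) = IDP_P a ^ n := by
  induction n with
  | zero => rw [pow_zero]; exact IDP_P_one
  | succ n ih =>
    rw [pow_succ, ← ih]
    exact IDP_P_mul _ _

theorem IDP_P_sum [Fintype G] [DecidableEq G] (a : G → ℂ) (r : Polynomial ℂ) :
    IDP_P (∑ k ∈ Finset.range (r.natDegree + 1), r.coeff k • cvp a k)
      = Polynomial.aeval (IDP_P a) r := by
  rw [Polynomial.aeval_eq_sum_range, map_sum]
  refine Finset.sum_congr rfl fun k _ => ?_
  rw [map_smul, IDP_P_pow]

theorem IDP_P_plv [Fintype G] [DecidableEq G] (a : G → ℂ) (e : Polynomial ℂ)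
    (he : e.coeff 0 = 0) :
    IDP_P (plv (e.natDegree + 1) (fun k => e.coeff (k + 1)) a) = Polynomial.aeval (IDP_P a) e := by
  rw [Polynomial.aeval_eq_sum_range' (show e.natDegree < e.natDegree + 1 + 1 by omega),
    Finset.sum_range_succ', he, zero_smul, add_zero]
  unfold plv
  rw [map_sum]
  refine Finset.sum_congr rfl fun k _ => ?_
  rw [map_smul, IDP_P_pow]

/-- The subring of the `IntAt` numbers. -/
def IDP_R {p : ℕ} {M : Ideal (integralClosure ℤ ℂ)} (h : Setup p M) : Subring ℂ where
  carrier := {z | IntAt M z}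
  mul_mem' := fun ha hb => IntAt.mul h ha hb
  one_mem' := IntAt.one h
  add_mem' := fun ha hb => IntAt.add h ha hb
  zero_mem' := IntAt.zero h
  neg_mem' := fun ha => IntAt.neg ha

omit [Group G] in
theorem IDP_charpoly {p : ℕ} {M : Ideal (integralClosure ℤ ℂ)} (h : Setup p M) [Fintype G]
    [DecidableEq G] (A : Matrix G G ℂ) (hA : ∀ g x, IntAt M (A g x)) (k : ℕ) :
    IntAt M (A.charpoly.coeff k) := by
  let B : Matrix G G (IDP_R h) := Matrix.of fun g x => ⟨A g x, hA g x⟩
  have hB : B.map (IDP_R h).subtype = A := by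
    ext g x
    rfl
  rw [← hB, Matrix.charpoly_map, Polynomial.coeff_map]
  exact (B.charpoly.coeff k).2

end

theorem IDP (hIDB : IDB_stmt) (hCVF : CVF_stmt) : IDP_stmt := by
  intro p M hs G _ _ H a hH ha
  classical
  have : Fintype G := Fintype.ofFinite G
  obtain ⟨hassoc, hadd, hsmul, hdl, -, hsupp, -, -, -, -, hint, -⟩ := hCVF G
  -- powers
  have hsp : ∀ k x, x ∉ H → cvp a k x = 0 := by
    intro k
    induction k with
    | zero =>
      intro x hx
      show dl x = 0
      unfold dl
      rw [if_neg]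
      rintro rfl
      exact hx H.one_mem
    | succ k ih => exact hsupp H _ _ ih hH
  have hip : ∀ k x, IntAt M (cvp a k x) := by
    intro k
    induction k with
    | zero =>
      intro x
      show IntAt M (dl x)
      unfold dl
      split_ifs
      · exact IntAt.one hs
      · exact IntAt.zero hs
    | succ k ih => exact hint p M hs _ _ ih ha
  set F : Polynomial ℂ := (IDP_P a).charpoly with hF
  have hFm : F.Monic := Matrix.charpoly_monic _
  have hFi : ∀ k, IntAt M (F.coeff k) :=
    IDP_charpoly hs _ fun g x => ha _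
  have hF0 : Polynomial.aeval (IDP_P a) F = 0 := Matrix.aeval_self_charpoly _
  obtain ⟨e, q, he0, hei, heq, N₀, hN⟩ := hIDB p M hs F hFm hFi
  have hPi := IDP_P_plv a e he0
  set i : G → ℂ := plv (e.natDegree + 1) (fun k => e.coeff (k + 1)) a with hi
  refine ⟨e.natDegree + 1, fun k => e.coeff (k + 1), fun k => hei _, ⟨?_, ?_, ?_⟩, N₀, ?_⟩
  · intro x hx
    unfold plv
    rw [Finset.sum_apply]
    refine Finset.sum_eq_zero fun k _ => ?_
    rw [Pi.smul_apply, hsp _ x hx, smul_zero]
  · intro x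
    unfold plv
    rw [Finset.sum_apply]
    refine IntAt.sum hs _ fun k _ => ?_
    rw [Pi.smul_apply, smul_eq_mul]
    exact IntAt.mul hs (hei _) (hip _ _)
  · rw [← hi]
    apply IDP_P_inj
    rw [IDP_P_mul, hPi, ← map_mul]
    have h1 : Polynomial.aeval (IDP_P a) (e * (1 - e)) = 0 := by
      rw [heq, map_mul, hF0, mul_zero]
    rw [mul_sub, mul_one, map_sub, sub_eq_zero] at h1
    exact h1.symm
  · intro N hNN x
    obtain ⟨q', r, hqr, hr⟩ := hN N hNN
    have h2 : cvp a N - cv (cvp a N) i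
        = ∑ k ∈ Finset.range (r.natDegree + 1), r.coeff k • cvp a k := by
      apply IDP_P_inj
      rw [IDP_P_sum, map_sub, IDP_P_mul, IDP_P_pow, hPi]
      have h3 : Polynomial.aeval (IDP_P a) (Polynomial.X ^ N * (1 - e))
          = Polynomial.aeval (IDP_P a) r := by
        rw [hqr, map_add, map_mul, hF0, mul_zero, zero_add]
      rw [← h3, map_mul, map_sub, map_one, map_pow, Polynomial.aeval_X, mul_sub, mul_one]
    rw [← hi]
    have h4 := congrFun h2 x
    rw [Pi.sub_apply] at h4
    rw [h4, Finset.sum_apply]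
    refine InM.sum hs _ fun k _ => ?_
    rw [Pi.smul_apply, smul_eq_mul]
    exact InM.mul_right hs (hr k) (hip k x)

end Pool.Agent.FI
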